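import Pool.Agent.R651.QNSpaces

/-!
# The Quillen negation monoid of topological spaces is finite
-/

set_option autoImplicit false

open CategoryTheory Topology Set

universe u

namespace Pool.Agent.Results.MP_97cbc3_al.FiniteMonoid

open Pool.Agent.R651.QN

/-! ### A finite list of classes -/

/-- A finite list of classes. -/
def base : Set MP.{u} := {Iso, ⊤, Init, Inj.rlp, Emb, Emb.rlp, Init.rlp, B0.rlp, CE.rlp, IC.rlp,
  B1.rlp, T0F, Surj, AE, Surj.llp}

/-- The classes which arise from the list by at most `n` negations. -/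
def K : ℕ → Set MP.{u}
  | 0 => base
  | n + 1 => K n ∪ ((fun C => C.llp) '' K n ∪ (fun C => C.rlp) '' K n)

theorem K_finite (n : ℕ) : (K.{u} n).Finite := by
  induction n with
  | zero =>
    show base.Finite
    unfold base
    simp only [Set.finite_insert, Set.finite_singleton]
  | succ n ih => exact ih.union ((ih.image _).union (ih.image _))

theorem K_mono {n m : ℕ} (h : n ≤ m) : K.{u} n ⊆ K m := by
  induction m, h using Nat.le_induction with
  | base => exact subset_rfl
  | succ m _ ih => exact ih.trans subset_union_left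

theorem K_l {n : ℕ} {C : MP.{u}} (h : C ∈ K n) : C.llp ∈ K (n + 1) :=
  Or.inr (Or.inl ⟨C, h, rfl⟩)

theorem K_r {n : ℕ} {C : MP.{u}} (h : C ∈ K n) : C.rlp ∈ K (n + 1) :=
  Or.inr (Or.inr ⟨C, h, rfl⟩)

/-! ### The cases -/

theorem antir {C C' : MP.{u}} (h : C ≤ C') : C'.rlp ≤ C.rlp := MorphismProperty.antitone_rlp h
theorem antil {C C' : MP.{u}} (h : C ≤ C') : C'.llp ≤ C.llp := MorphismProperty.antitone_llp h

theorem le_llp_rlp' (C : MP.{u}) : C ≤ C.llp.rlp :=
  (MorphismProperty.le_llp_iff_le_rlp _ _).1 le_rfl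

theorem exists_of_not_le {C D : MP.{u}} (h : ¬ C ≤ D) :
    ∃ (X Y : TopCat.{u}) (f : X ⟶ Y), C f ∧ ¬ D f := by
  by_contra hcon
  push Not at hcon
  exact h fun A B q hq => hcon A B q hq

theorem caseA (C : MP.{u}) (h : C ≤ Surj) : C.rlp.rlp ∈ K.{u} 0 := by
  have h1 : Emb ≤ C.rlp := emb_le_rlp h
  have h2 : C.rlp.rlp ≤ Emb.rlp := antir h1
  have hE : HasE C.rlp := by
    intro X Y f hX
    refine h1 f ⟨⟨?_⟩, fun x => (hX.false x).elim⟩
    exact Subsingleton.elim _ _
  by_cases hI : C.rlp ≤ Init
  · by_cases hJ : C.rlp ≤ Inj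
    · have : C.rlp.rlp = Emb.rlp := le_antisymm h2 (antir fun X Y f hf => ⟨hI f hf, hJ f hf⟩)
      rw [this]
      simp [K, base]
    · have hT := rlp_le_T0F C hJ
      have : C.rlp.rlp = Init.rlp :=
        le_antisymm (fun X Y g hg => init_rlp_of g (h2 g hg) (hT g hg)) (antir hI)
      rw [this]
      simp [K, base]
  · obtain ⟨X, Y, f, hf, hni⟩ := exists_of_not_le hI
    have h3 := rlp_le_init C f hf hni (Or.inr h)
    have h4 := rlp_le_surj hE
    by_cases hJ : C.rlp ≤ Inj
    · have : C.rlp.rlp = Inj.rlp :=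
        le_antisymm (fun X Y g hg => init_surj_le g (h3 g hg) (h4 g hg)) (antir hJ)
      rw [this]
      simp [K, base]
    · have hT := rlp_le_T0F C hJ
      have : C.rlp.rlp = Iso :=
        le_antisymm (fun X Y g hg => iso_of g (h3 g hg) (h4 g hg) (hT g hg)) (iso_le_rlp _)
      rw [this]
      simp [K, base]

theorem llp_llp_le {C : MP.{u}} (h : C ≤ T1F) : C.llp.llp ≤ Surj.llp :=
  (antil (antil h)).trans T1F_llp_llp_le

theorem not_indiscrete {X Y : TopCat.{u}} {f : X ⟶ Y}
    (h : ¬ ∀ (U : Set X) (x y : X), IsOpen U → f x = f y → x ∈ U → y ∈ U) :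
    ∃ (U : Set X) (x y : X), IsOpen U ∧ f x = f y ∧ x ∈ U ∧ y ∉ U := by
  by_contra hcon
  push Not at hcon
  exact h fun U x y hU hxy hx => hcon U x y hU hxy hx

theorem caseB (P : MP.{u}) (h : P.rlp ≤ Surj) : P.rlp.rlp.llp.llp.rlp ∈ K.{u} 3 := by
  have hE : Emb ≤ P.rlp.rlp := emb_le_rlp h
  suffices hs : P.rlp.rlp ∈ K.{u} 0 ∨ P.rlp.rlp.llp.llp = Surj.llp by
    rcases hs with hs | hs
    · exact K_r (K_l (K_l hs))
    · rw [hs]
      have : (Surj.llp : MP.{u}) ∈ K.{u} 0 := by simp [K, base]
      exact K_mono (by norm_num) (K_r this)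
  by_cases hI : P.rlp ≤ Init
  · left
    by_cases hJ : P.rlp ≤ Inj
    · rw [rlp_eq_top fun X Y g hg => isIso_of_bij_inducing g (hJ g hg) (h g hg) (hI g hg)]
      simp [K, base]
    · have hT := rlp_le_T0F P hJ
      have : P.rlp.rlp = T0F := le_antisymm hT fun X Y g hg => by
        have h1 := si_rlp_of g hg
        exact antir (C := P.rlp) (C' := SI) (fun A B f hf => ⟨h f hf, hI f hf⟩) g h1
      rw [this]
      simp [K, base]
  · obtain ⟨X, Y, f, hf, hni⟩ := exists_of_not_le hI
    by_cases hc : ∀ (U : Set X) (x y : X), IsOpen U → f x = f y → x ∈ U → y ∈ U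
    · left
      have h3 := rlp_le_init P f hf hni (Or.inl hc)
      by_cases hJ : P.rlp ≤ Inj
      · rw [le_antisymm h3 (init_le_rlp h hJ)]
        simp [K, base]
      · have hT := rlp_le_T0F P hJ
        rw [le_antisymm (fun X Y g hg => emb_of g (h3 g hg) (hT g hg)) hE]
        simp [K, base]
    · right
      obtain ⟨U, x, y, hU, hxy, hx, hy⟩ := not_indiscrete hc
      have h3 := rlp_le_T1F P f hf x y hxy U hU hx hy
      exact le_antisymm (llp_llp_le h3) (antil ((antil hE).trans emb_llp_le))

theorem caseD (P : MP.{u}) (h : P.rlp ≤ Inj) : P.rlp.rlp ∈ K.{u} 0 := by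
  by_cases hI : P.rlp ≤ Init
  · rcases dichotomy P with hE | hS
    · by_cases hcl : ∃ (X Y : TopCat.{u}) (f : X ⟶ Y), P.rlp f ∧ ¬ IsClosed (range f)
      · obtain ⟨X, Y, f, hf, hfc⟩ := hcl
        rw [le_antisymm (rlp_le_Emb P f hf hfc) (antir fun A B g hg => ⟨hI g hg, h g hg⟩)]
        simp [K, base]
      · push Not at hcl
        by_cases hb : ∃ (X Y : TopCat.{u}) (f : X ⟶ Y), P.rlp f ∧ Nonempty X ∧ ∃ y, y ∉ range f
        · obtain ⟨X, Y, f, hf, ⟨x⟩, y, hy⟩ := hb
          rw [le_antisymm (rlp_le_CE P f hf x y hy)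
            (antir fun A B g hg => ⟨⟨hI g hg, h g hg⟩, hcl A B g hg⟩)]
          simp [K, base]
        · push Not at hb
          rw [le_antisymm (rlp_le_B0 hE) (antir fun A B g hg => ?_)]
          · simp [K, base]
          · by_cases hA : Nonempty A
            · exact Or.inr (isIso_of_bij_inducing g (h g hg) (hb A B g hg hA) (hI g hg))
            · exact Or.inl (not_nonempty_iff.1 hA)
    · rw [rlp_eq_top fun X Y g hg => isIso_of_bij_inducing g (h g hg) (hS g hg) (hI g hg)]
      simp [K, base]
  · obtain ⟨X, Y, f, hf, hni⟩ := exists_of_not_le hI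
    have h3 := rlp_le_init P f hf hni (Or.inl fun U x y _ hxy hx => h f hf hxy ▸ hx)
    rcases dichotomy P with hE | hS
    · rw [le_antisymm (fun X Y g hg => init_surj_le g (h3 g hg) (rlp_le_surj hE g hg)) (antir h)]
      simp [K, base]
    · rw [le_antisymm h3 (init_le_rlp hS h)]
      simp [K, base]

theorem caseE (P : MP.{u}) (h : ¬ P.rlp ≤ Inj) (hE : HasE P.rlp) :
    P.rlp.rlp ∈ K.{u} 0 ∨ P.rlp.rlp.llp.llp.rlp.rlp = Iso := by
  have hT := rlp_le_T0F P h
  have hSr := rlp_le_surj hE
  by_cases hI : P.rlp ≤ Init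
  · left
    by_cases hcl : ∃ (X Y : TopCat.{u}) (f : X ⟶ Y), P.rlp f ∧ ¬ IsClosed (range f)
    · obtain ⟨X, Y, f, hf, hfc⟩ := hcl
      rw [le_antisymm (fun A B g hg => init_rlp_of g (rlp_le_Emb P f hf hfc g hg) (hT g hg))
        (antir hI)]
      simp [K, base]
    · push Not at hcl
      by_cases hb : ∃ (X Y : TopCat.{u}) (f : X ⟶ Y), P.rlp f ∧ Nonempty X ∧ ∃ y, y ∉ range f
      · obtain ⟨X, Y, f, hf, ⟨x⟩, y, hy⟩ := hb
        rw [le_antisymm (fun A B g hg => ic_rlp_of g (rlp_le_CE P f hf x y hy g hg) (hT g hg))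
          (antir fun A B g hg => ⟨hI g hg, hcl A B g hg⟩)]
        simp [K, base]
      · push Not at hb
        rw [le_antisymm (fun A B g hg => b1_rlp_of g (rlp_le_B0 hE g hg) (hT g hg))
          (antir fun A B g hg => ?_)]
        · simp [K, base]
        · by_cases hA : Nonempty A
          · exact Or.inr ⟨hb A B g hg hA, hI g hg⟩
          · exact Or.inl (not_nonempty_iff.1 hA)
  · obtain ⟨X, Y, f, hf, hni⟩ := exists_of_not_le hI
    by_cases hc : ∀ (U : Set X) (x y : X), IsOpen U → f x = f y → x ∈ U → y ∈ U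
    · left
      have h3 := rlp_le_init P f hf hni (Or.inl hc)
      rw [le_antisymm (fun A B g hg => iso_of g (h3 g hg) (hSr g hg) (hT g hg)) (iso_le_rlp _)]
      simp [K, base]
    · right
      obtain ⟨U, x, y, hU, hxy, hx, hy⟩ := not_indiscrete hc
      have h3 := rlp_le_T1F P f hf x y hxy U hU hx hy
      have h4 : Surj ≤ P.rlp.rlp.llp.llp.rlp := (le_llp_rlp' Surj).trans (antir (llp_llp_le h3))
      have h5 : P.rlp ≤ P.rlp.rlp.llp.llp.rlp :=
        (MorphismProperty.le_llp_rlp _).trans (le_llp_rlp' _)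
      have hE2 : HasE P.rlp.rlp.llp.llp.rlp := fun X Y f hX => h5 f (hE X Y f hX)
      refine le_antisymm (fun A B g hg => ?_) (iso_le_rlp _)
      exact isIso_of_self g (antir h4 g hg g (rlp_le_surj hE2 g hg))

/-! ### The left hand side -/

/-- The map from the discrete two-point space to the one-point space. -/
def d2 : TopCat.of (ULift.{u} Bool) ⟶ TopCat.of PUnit.{u + 1} :=
  TopCat.ofHom ⟨fun _ => PUnit.unit, continuous_of_discreteTopology⟩

theorem caseG (C : MP.{u}) (h : C.llp ≤ Inj) : C.llp.llp.rlp ≤ Inj := by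
  have hd : C.llp.llp d2.{u} := by
    intro X Y f hf
    apply hlp_of
    intro u v huv
    have hinj : Function.Injective f := h f hf
    have h1 : ∀ b b', u b = u b' := fun b b' => hinj ((huv b).trans (huv b').symm)
    exact ⟨ContinuousMap.const _ (u ⟨true⟩), fun b => h1 _ _, fun b => huv _⟩
  intro X Y g hg x y hxy
  obtain ⟨k, hk1, -⟩ := hlp (hg d2 hd)
    ⟨fun b => if b.down then x else y, continuous_of_discreteTopology⟩
    (ContinuousMap.const _ (g x)) (by
      rintro ⟨b⟩
      cases b
      · exact hxy.symm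
      · rfl)
  have h1 : k PUnit.unit = x := hk1 ⟨true⟩
  have h2 : k PUnit.unit = y := hk1 ⟨false⟩
  exact h1.symm.trans h2

theorem caseH (C : MP.{u}) (h : C.llp ≤ Inj) : C.llp.llp.llp.rlp ∈ K.{u} 0 := by
  classical
  have h0 : C.llp ≤ T1F := fun X Y f hf x y hxy _ => h f hf hxy
  have h1 : C.llp.llp.llp ≤ T1F.llp.llp := antil (antil h0)
  have h2 : Surj ≤ C.llp.llp.llp.rlp :=
    (le_llp_rlp' Surj).trans (antir (h1.trans T1F_llp_llp_le))
  rcases dichotomy C.llp.llp.llp with hE | hS
  · by_cases hb : ∃ (X Y : TopCat.{u}) (f : X ⟶ Y), C.llp.llp.llp.rlp f ∧ Nonempty X ∧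
        ∃ y, y ∉ range f
    · obtain ⟨X, Y, f, hf, ⟨e0⟩, y0, hy0⟩ := hb
      rw [rlp_eq_top (C := C.llp.llp.llp) ?_]
      · simp [K, base]
      · intro A B p hp
        have hstr := fun b => structure8 p b (h1 p hp)
        have hinj : Function.Injective p := fun a a' haa => (hstr (p a)).1 haa
        have hopen : IsOpenMap p := by
          intro U hU
          by_cases hB : Nonempty B
          · obtain ⟨b⟩ := hB
            exact (hstr b).2.1 U hU
          · have : IsEmpty B := not_nonempty_iff.1 hB
            rw [Set.eq_empty_of_isEmpty (p '' U)]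
            exact isOpen_empty
        have hcomp : IsOpen (range p)ᶜ := by
          rw [isOpen_iff_forall_mem_open]
          intro b hb
          exact ⟨{b}, singleton_subset_iff.2 hb, (hstr b).2.2 hb, rfl⟩
        have hsurj : Function.Surjective p := by
          intro b
          by_contra hcon
          have hcont : Continuous fun b : B => if b ∈ range p then f e0 else y0 := by
            rw [continuous_def]
            intro O hO
            have : (fun b : B => if b ∈ range p then f e0 else y0) ⁻¹' O =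
                {b | b ∈ range p ∧ f e0 ∈ O} ∪ {b | b ∈ (range p)ᶜ ∧ y0 ∈ O} := by
              ext b
              show (if b ∈ range p then f e0 else y0) ∈ O ↔
                (b ∈ range p ∧ f e0 ∈ O) ∨ (b ∉ range p ∧ y0 ∈ O)
              split_ifs with hbp
              · simp only [hbp, true_and, not_true_eq_false, false_and, or_false]
              · simp only [hbp, false_and, not_false_eq_true, true_and, false_or]
            rw [this]
            refine IsOpen.union ?_ ?_
            · exact (hopen.isOpen_range).and isOpen_const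
            · exact hcomp.and isOpen_const
          obtain ⟨k, -, hk⟩ := hlp (hf p hp) (ContinuousMap.const _ e0) ⟨_, hcont⟩ (by
            intro a
            exact (if_pos ⟨a, rfl⟩).symm)
          have h5 : f (k b) = if b ∈ range p then f e0 else y0 := hk b
          rw [if_neg (by rintro ⟨a, ha⟩; exact hcon ⟨a, ha⟩)] at h5
          exact hy0 ⟨_, h5⟩
        exact isIso_of_bij_inducing p hinj hsurj
          (IsOpenEmbedding.of_continuous_injective_isOpenMap p.hom.continuous hinj
            hopen).isEmbedding.isInducing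
    · push Not at hb
      rw [(le_antisymm ?_ ?_ : C.llp.llp.llp.rlp = AE)]
      · simp [K, base]
      · intro A B g hg
        by_cases hA : Nonempty A
        · exact Or.inr (hb A B g hg hA)
        · exact Or.inl (not_nonempty_iff.1 hA)
      · intro A B g hg
        rcases hg with hg | hg
        · exact hE A B g hg
        · exact h2 g hg
  · rw [le_antisymm hS h2]
    simp [K, base]

/-- The indiscrete two-point space. -/
def I2 : Type u := ULift.{u} Bool

instance : TopologicalSpace I2.{u} := ⊤

/-- The points. -/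
def pt (b : Bool) : I2.{u} := (⟨b⟩ : ULift.{u} Bool)

theorem pt_insep : Inseparable (pt.{u} true) (pt false) := by
  rw [inseparable_iff_forall_isOpen]
  intro s hs
  rcases (TopologicalSpace.isOpen_top_iff s).1 hs with h | h
  · rw [h]
    exact Iff.rfl
  · rw [h]
    exact iff_of_true (mem_univ _) (mem_univ _)

/-- The map from the indiscrete two-point space to the one-point space. -/
def i2 : TopCat.of I2.{u} ⟶ TopCat.of PUnit.{u + 1} :=
  TopCat.ofHom ⟨fun _ => PUnit.unit, continuous_const⟩

theorem caseI (C : MP.{u}) (h : ¬ C.llp ≤ Inj) : C.llp.llp.rlp.llp ≤ Inj := by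
  classical
  obtain ⟨X, Y, f, hf, x0, x1, h01, hne⟩ : ∃ (X Y : TopCat.{u}) (f : X ⟶ Y), C.llp f ∧
      ∃ x0 x1 : X, f x0 = f x1 ∧ x0 ≠ x1 := by
    by_contra hcon
    push Not at hcon
    exact h fun A B q hq x y hxy => hcon A B q hq x y hxy
  have hi : C.llp i2.{u} := by
    intro A B g hg
    apply hlp_of
    intro u v huv
    have huv' : ∀ z : I2.{u}, g (u z) = v PUnit.unit := huv
    have hins : Inseparable (u (pt true)) (u (pt false)) := pt_insep.map u.continuous
    have hgu : g (u (pt true)) = g (u (pt false)) := (huv' _).trans (huv' _).symm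
    obtain ⟨k, hk1, -⟩ := hlp (hf g hg)
      ⟨fun z => if z ∈ ({x0} : Set X) then u (pt true) else u (pt false),
        continuous_ite_insep _ _ _ hins⟩
      (ContinuousMap.const _ (g (u (pt false)))) (by
        intro z
        show g (if _ then _ else _) = _
        split_ifs
        · exact hgu
        · rfl)
    have h0 : k (f x0) = u (pt true) := (hk1 x0).trans (if_pos rfl)
    have h1 : k (f x1) = u (pt false) := (hk1 x1).trans (if_neg fun h => hne h.symm)
    rw [h01] at h0
    have h2 : u (pt true) = u (pt false) := h0.symm.trans h1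
    refine ⟨ContinuousMap.const _ (u (pt true)), ?_, fun b => huv' _⟩
    rintro ⟨b⟩
    cases b
    · exact h2
    · rfl
  intro A B g hg a0 a1 h01'
  by_contra hne'
  obtain ⟨k, hk1, -⟩ := hlp (hg i2 (le_llp_rlp' _ _ hi))
    ⟨fun z => pt (decide (z = a0)), continuous_top⟩
    (ContinuousMap.const _ PUnit.unit) (fun z => rfl)
  have h0 : k (g a0) = pt (decide (a0 = a0)) := hk1 a0
  have h1 : k (g a1) = pt (decide (a1 = a0)) := hk1 a1
  rw [h01'] at h0
  have h2 : decide (a0 = a0) = decide (a1 = a0) := congrArg ULift.down (h0.symm.trans h1)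
  simp only [decide_true] at h2
  exact hne' (of_decide_eq_true h2.symm).symm

/-! ### Words -/

/-- The action of the words in `ρ` (`true`) and `lam` (`false`) on the classes. -/
def act : List Bool → MP.{u} → MP.{u}
  | [], C => C
  | true :: w, C => act w C.rlp
  | false :: w, C => act w C.llp.llp.rlp

theorem act_append (w w' : List Bool) (C : MP.{u}) : act (w ++ w') C = act w' (act w C) := by
  induction w generalizing C with
  | nil => rfl
  | cons a w ih =>
    cases a
    · exact ih _
    · exact ih _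

theorem act_right (w : List Bool) : ∀ P : MP.{u}, ∃ P' : MP.{u}, act w P.rlp = P'.rlp := by
  induction w with
  | nil => exact fun P => ⟨P, rfl⟩
  | cons a w ih =>
    intro P
    cases a
    · exact ih _
    · exact ih _

theorem act_K (w : List Bool) : ∀ (n : ℕ) (C : MP.{u}), C ∈ K n → act w C ∈ K (n + 3 * w.length) := by
  induction w with
  | nil => exact fun n C h => h
  | cons a w ih =>
    intro n C h
    cases a
    · have h1 := ih _ _ (K_r (K_l (K_l h)))
      have h2 : n + 1 + 1 + 1 + 3 * w.length = n + 3 * (w.length + 1) := by ring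
      rw [h2] at h1
      exact h1
    · have h1 := ih _ _ (K_r h)
      exact K_mono (by simp only [List.length_cons]; omega) h1

theorem rhoLamRho (P : MP.{u}) : act [true, false, true] P.rlp ∈ K 4 := by
  show P.rlp.rlp.llp.llp.rlp.rlp ∈ K 4
  rcases dichotomy P with hE | hS
  · by_cases hJ : P.rlp ≤ Inj
    · exact K_r (K_r (K_l (K_l (caseD P hJ))))
    · rcases caseE P hJ hE with h | h
      · exact K_r (K_r (K_l (K_l h)))
      · rw [h]
        have : (Iso : MP.{u}) ∈ K.{u} 0 := by simp [K, base]
        exact K_mono (by norm_num) this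
  · exact K_r (caseB P hS)

theorem rhoRho (P : MP.{u}) (a : Bool) : act [true, true, a] P.rlp ∈ K 4 := by
  rcases dichotomy P with hE | hS
  · have hS := rlp_le_surj hE
    cases a
    · exact K_mono (by norm_num) (caseB P.rlp hS)
    · exact K_mono (by norm_num) (caseA P.rlp.rlp hS)
  · have h := caseA P.rlp hS
    cases a
    · exact K_mono (by norm_num) (K_r (K_l (K_l h)))
    · exact K_mono (by norm_num) (K_r h)

theorem lamLam (C : MP.{u}) (a : Bool) : act [false, false, a] C ∈ K 4 := by
  by_cases hJ : C.llp ≤ Inj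
  · have h := caseH C hJ
    have h' : C.llp.llp.rlp.llp.llp.rlp ∈ K.{u} 0 := by
      rw [MorphismProperty.llp_rlp_llp]
      exact h
    cases a
    · exact K_mono (by norm_num) (K_r (K_l (K_l h')))
    · exact K_mono (by norm_num) (K_r h')
  · have hJ' := caseI C hJ
    cases a
    · have h := caseH _ hJ'
      show C.llp.llp.rlp.llp.llp.rlp.llp.llp.rlp ∈ K 4
      rw [MorphismProperty.llp_rlp_llp C.llp.llp.rlp.llp]
      exact K_mono (by norm_num) h
    · exact K_mono (by norm_num) (caseD _ (caseG _ hJ'))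

theorem act_five (P : MP.{u}) (a b c d e : Bool) : act [a, b, c, d, e] P.rlp ∈ K 10 := by
  have hstep : ∀ (w w' : List Bool) (P : MP.{u}), w'.length ≤ 2 → act w P.rlp ∈ K 4 →
      act (w ++ w') P.rlp ∈ K 10 := by
    intro w w' P hw h
    rw [act_append]
    exact K_mono (by omega) (act_K w' _ _ h)
  by_cases hab : a = b
  · subst hab
    have : act [a, a, c] P.rlp ∈ K 4 := by
      cases a
      · exact lamLam _ _
      · exact rhoRho _ _
    exact hstep [a, a, c] [d, e] P (by simp) this
  by_cases hbc : b = c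
  · subst hbc
    show act ([a] ++ ([b, b, d] ++ [e])) P.rlp ∈ K 10
    rw [act_append]
    obtain ⟨P', hP'⟩ := act_right [a] P
    rw [hP']
    have : act [b, b, d] P'.rlp ∈ K 4 := by
      cases b
      · exact lamLam _ _
      · exact rhoRho _ _
    exact hstep [b, b, d] [e] P' (by simp) this
  by_cases hcd : c = d
  · subst hcd
    show act ([a, b] ++ ([c, c, e] ++ [])) P.rlp ∈ K 10
    rw [act_append]
    obtain ⟨P', hP'⟩ := act_right [a, b] P
    rw [hP']
    have : act [c, c, e] P'.rlp ∈ K 4 := by
      cases c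
      · exact lamLam _ _
      · exact rhoRho _ _
    exact hstep [c, c, e] [] P' (by simp) this
  cases a
  · have hb : b = true := by
      cases b
      · exact (hab rfl).elim
      · rfl
    subst hb
    have hc : c = false := by
      cases c
      · rfl
      · exact (hbc rfl).elim
    subst hc
    have hd : d = true := by
      cases d
      · exact (hcd rfl).elim
      · rfl
    subst hd
    show act ([false] ++ ([true, false, true] ++ [e])) P.rlp ∈ K 10
    rw [act_append]
    obtain ⟨P', hP'⟩ := act_right [false] P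
    rw [hP']
    exact hstep [true, false, true] [e] P' (by simp) (rhoLamRho P')
  · have hb : b = false := by
      cases b
      · rfl
      · exact (hab rfl).elim
    subst hb
    have hc : c = true := by
      cases c
      · exact (hbc rfl).elim
      · rfl
    subst hc
    exact hstep [true, false, true] [d, e] P (by simp) (rhoLamRho P)

theorem act_long (w : List Bool) (hw : 5 ≤ w.length) (P : MP.{u}) : act w P.rlp ∈ K 10 := by
  have h1 : w = w.take (w.length - 5) ++ w.drop (w.length - 5) := (List.take_append_drop _ _).symm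
  have h2 : (w.drop (w.length - 5)).length = 5 := by
    rw [List.length_drop]
    omega
  rw [h1, act_append]
  obtain ⟨P', hP'⟩ := act_right (w.take (w.length - 5)) P
  rw [hP']
  match hw5 : w.drop (w.length - 5), h2 with
  | [a, b, c, d, e], _ => exact act_five P' a b c d e

/-- The operators `P ↦ w(P^r)`. -/
def T (w : List Bool) : MP.{u} → MP.{u} := fun P => act w P.rlp

theorem finite_factor {α β γ : Type*} (x0 : α) (b : α → β) (S : Set β) (hS : S.Finite)
    (hb : ∀ x, b x ∈ S) (R : Set γ) (hR : R.Finite) :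
    {g : α → γ | (∀ x y, b x = b y → g x = g y) ∧ ∀ x, g x ∈ R}.Finite := by
  classical
  have := hS.to_subtype
  have := hR.to_subtype
  refine (Set.finite_range fun (φ : S → R) (x : α) => (φ ⟨b x, hb x⟩).1).subset ?_
  rintro g ⟨hg1, hg2⟩
  refine ⟨fun s => if h : ∃ x, b x = s.1 then ⟨g h.choose, hg2 _⟩ else ⟨g x0, hg2 _⟩, ?_⟩
  funext x
  have h : ∃ x', b x' = b x := ⟨x, rfl⟩
  show ((if h : ∃ x', b x' = b x then (⟨g h.choose, hg2 _⟩ : R) else ⟨g x0, hg2 _⟩) : R).1 = g x
  rw [dif_pos h]
  exact hg1 _ _ h.choose_spec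

theorem T_finite : (Set.range T.{u}).Finite := by
  have hsub : Set.range T.{u} ⊆ (T.{u} '' {w | w.length < 5}) ∪
      ⋃ w ∈ {w : List Bool | w.length = 5},
        {g : MP.{u} → MP.{u} | (∀ x y, T w x = T w y → g x = g y) ∧ ∀ x, g x ∈ K.{u} 10} := by
    rintro _ ⟨w, rfl⟩
    by_cases hw : w.length < 5
    · exact Or.inl ⟨w, hw, rfl⟩
    · right
      push Not at hw
      have h1 : w = w.take 5 ++ w.drop 5 := (List.take_append_drop _ _).symm
      have h2 : (w.take 5).length = 5 := by
        rw [List.length_take]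
        omega
      refine Set.mem_biUnion (show w.take 5 ∈ {w : List Bool | w.length = 5} from h2) ?_
      refine ⟨fun x y hxy => ?_, fun x => act_long w hw x⟩
      show act w x.rlp = act w y.rlp
      rw [h1, act_append, act_append]
      exact congrArg _ hxy
  refine Set.Finite.subset ?_ hsub
  refine ((List.finite_length_lt Bool 5).image _).union ?_
  refine (List.finite_length_eq Bool 5).biUnion fun w hw => ?_
  exact finite_factor ⊤ (T w) (K 10) (K_finite 10)
    (fun x => act_long w (by rw [show w.length = 5 from hw]) x) (K 10) (K_finite 10)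

/-- The operator `P ↦ P^l`. -/
def opL : Function.End (MorphismProperty TopCat.{u}) := fun P => P.llp

/-- The operator `P ↦ P^r`. -/
def opR : Function.End (MorphismProperty TopCat.{u}) := fun P => P.rlp

/-- A finite set of operators which contains the monoid. -/
def M : Set (MP.{u} → MP.{u}) :=
  {id} ∪ (Set.range T.{u} ∪ ((fun t P => (t P).llp) '' Set.range T.{u} ∪
    ((fun t P => t P.llp) '' Set.range T.{u} ∪ (fun t P => (t P.llp).llp) '' Set.range T.{u})))

theorem M_finite : M.{u}.Finite :=
  (Set.finite_singleton _).union (T_finite.union ((T_finite.image _).union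
    ((T_finite.image _).union (T_finite.image _))))

theorem T_right (w : List Bool) (P : MP.{u}) : (T w P).llp.rlp = T w P := by
  obtain ⟨P', hP'⟩ := act_right w P
  show (act w P.rlp).llp.rlp = act w P.rlp
  rw [hP', MorphismProperty.rlp_llp_rlp]

theorem T_rho (w : List Bool) (P : MP.{u}) : (T w P).rlp = T (w ++ [true]) P := by
  show _ = act (w ++ [true]) P.rlp
  rw [act_append]
  rfl

theorem T_lam (w : List Bool) (P : MP.{u}) : (T w P).llp.llp = (T (w ++ [false]) P).llp := by
  show _ = (act (w ++ [false]) P.rlp).llp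
  rw [act_append]
  exact (MorphismProperty.llp_rlp_llp _).symm

theorem M_closed (g : MP.{u} → MP.{u}) (hg : g ∈ M.{u}) :
    (fun P => (g P).llp) ∈ M.{u} ∧ (fun P => (g P).rlp) ∈ M.{u} := by
  rcases hg with rfl | ⟨w, rfl⟩ | ⟨_, ⟨w, rfl⟩, rfl⟩ | ⟨_, ⟨w, rfl⟩, rfl⟩ | ⟨_, ⟨w, rfl⟩, rfl⟩
  · constructor
    · refine Or.inr (Or.inr (Or.inr (Or.inr ⟨T [], ⟨[], rfl⟩, ?_⟩)))
      funext P
      exact MorphismProperty.llp_rlp_llp P
    · exact Or.inr (Or.inl ⟨[], rfl⟩)
  · constructor
    · exact Or.inr (Or.inr (Or.inl ⟨T w, ⟨w, rfl⟩, rfl⟩))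
    · refine Or.inr (Or.inl ⟨w ++ [true], ?_⟩)
      funext P
      exact (T_rho w P).symm
  · constructor
    · refine Or.inr (Or.inr (Or.inl ⟨T (w ++ [false]), ⟨_, rfl⟩, ?_⟩))
      funext P
      exact (T_lam w P).symm
    · refine Or.inr (Or.inl ⟨w, ?_⟩)
      funext P
      exact (T_right w P).symm
  · constructor
    · exact Or.inr (Or.inr (Or.inr (Or.inr ⟨T w, ⟨w, rfl⟩, rfl⟩)))
    · refine Or.inr (Or.inr (Or.inr (Or.inl ⟨T (w ++ [true]), ⟨_, rfl⟩, ?_⟩)))
      funext P
      exact (T_rho w P.llp).symm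
  · constructor
    · refine Or.inr (Or.inr (Or.inr (Or.inr ⟨T (w ++ [false]), ⟨_, rfl⟩, ?_⟩)))
      funext P
      exact (T_lam w P.llp).symm
    · refine Or.inr (Or.inr (Or.inr (Or.inl ⟨T w, ⟨_, rfl⟩, ?_⟩)))
      funext P
      exact (T_right w P.llp).symm

/-- **Main result.** The Quillen negation monoid of topological spaces, that is the monoid of
operators on classes of continuous maps generated by `P ↦ P^l` and `P ↦ P^r`, is finite. -/
theorem result :
    Finite (Submonoid.closure {opL.{u}, opR.{u}} :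
      Submonoid (Function.End (MorphismProperty TopCat.{u}))) := by
  have hsub : ((Submonoid.closure {opL.{u}, opR.{u}} :
      Submonoid (Function.End (MorphismProperty TopCat.{u}))) :
      Set (Function.End (MorphismProperty TopCat.{u}))) ⊆ M.{u} := by
    intro g hg
    induction hg using Submonoid.closure_induction_left with
    | one => exact Or.inl rfl
    | mul_left x hx y hy ih =>
      rcases hx with rfl | rfl
      · exact (M_closed y ih).1
      · exact (M_closed y ih).2
  exact (M_finite.subset hsub).to_subtype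

end Pool.Agent.Results.MP_97cbc3_al.FiniteMonoid
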